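import Pool.Agent.H358R3.Plac3
set_option autoImplicit false

/-! # The first-order theory of a plactic monoid of infinite rank is undecidable

The natural number `n` is represented by the power `o ^ n` of a generator `o`. Products of powers
are compared by commutation: for letters `a < b`, the element `b ^ i a ^ j` commutes with `a` and with
`b` iff `i = j`. A finite sequence of exponents is coded by a product of powers of distinct letters,
and a product `m k` is reached by the sequences `0, 1, ..., m` and `0, k, ..., m k`. -/

namespace Pool.Agent.Results.MP_54e6ab_lc.PlacticUndecidable

open Pool.Agent.H358R3.Plac

/-- For every infinite totally ordered set `A`, no algorithm decides which first-order sentences in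
the language of monoids, with constant symbols `c ∈ C` naming generators `g c` (for instance with
`C` empty, or `C = A = ℕ` or `C = A = ℤ` and `g = id`), are true in the plactic monoid `P(A)`. -/
theorem result (A : Type) [LinearOrder A] [Infinite A] (C : Type) [Encodable C] (g : C → A) :
    ¬ DecidableTheory g := undecidable g

end Pool.Agent.Results.MP_54e6ab_lc.PlacticUndecidable
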